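import Mathlib

/-!
# Infinite systems of linear equations with a Hilbert-Schmidt matrix: convergence of the finite
sections
-/

set_option autoImplicit false

namespace Pool.Agent.K1H59.BN

open Filter Topology Finset

/-- Cauchy-Schwarz for finite complex sums, squared -/
theorem cs (s : Finset ℕ) (a b : ℕ → ℂ) :
    ‖∑ j ∈ s, a j * b j‖ ^ 2 ≤ (∑ j ∈ s, ‖a j‖ ^ 2) * ∑ j ∈ s, ‖b j‖ ^ 2 := by
  have h1 : ‖∑ j ∈ s, a j * b j‖ ≤ ∑ j ∈ s, ‖a j‖ * ‖b j‖ :=
    (norm_sum_le _ _).trans (le_of_eq (Finset.sum_congr rfl fun j _ => norm_mul _ _))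
  calc ‖∑ j ∈ s, a j * b j‖ ^ 2 ≤ (∑ j ∈ s, ‖a j‖ * ‖b j‖) ^ 2 :=
        pow_le_pow_left₀ (norm_nonneg _) h1 2
    _ ≤ _ := Finset.sum_mul_sq_le_sq_mul_sq _ _ _

/-- the defect of the vector `u` in the `n`-th section -/
noncomputable def df (f : ℕ → ℕ → ℂ) (t : ℂ) (n : ℕ) (u : ℕ → ℂ) (i : ℕ) : ℂ :=
  u i - t * ∑ j ∈ range n, f i j * u j

/-- the `n`-th section -/
noncomputable def mat (f : ℕ → ℕ → ℂ) (t : ℂ) (n : ℕ) : Matrix (Fin n) (Fin n) ℂ :=
  1 - t • (Matrix.of fun i j : Fin n => f i j)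

theorem mat_mulVec (f : ℕ → ℕ → ℂ) (t : ℂ) (n : ℕ) (u : ℕ → ℂ) (i : Fin n) :
    (mat f t n).mulVec (fun j => u j) i = df f t n u i := by
  unfold mat df
  rw [Matrix.sub_mulVec, Matrix.one_mulVec, Matrix.smul_mulVec, Pi.sub_apply, Pi.smul_apply,
    smul_eq_mul]
  congr 2
  rw [Matrix.mulVec, dotProduct, Finset.sum_range]
  rfl

/-- the solution of the `n`-th section, extended by zero -/
noncomputable def sol (f : ℕ → ℕ → ℂ) (β : ℕ → ℂ) (t : ℂ) (n : ℕ) (j : ℕ) : ℂ :=
  if h : j < n then ((mat f t n).det)⁻¹ *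
    Matrix.cramer (mat f t n) (fun i => β i) ⟨j, h⟩ else 0

theorem sol_zero {f : ℕ → ℕ → ℂ} {β : ℕ → ℂ} {t : ℂ} {n j : ℕ} (h : n ≤ j) :
    sol f β t n j = 0 := by
  unfold sol
  rw [dif_neg (not_lt.2 h)]

theorem df_sol {f : ℕ → ℕ → ℂ} {β : ℕ → ℂ} {t : ℂ} {n : ℕ} (hd : (mat f t n).det ≠ 0) {i : ℕ}
    (hi : i < n) : df f t n (sol f β t n) i = β i := by
  have h1 := mat_mulVec f t n (sol f β t n) ⟨i, hi⟩
  rw [← h1]
  have h2 : (fun j : Fin n => sol f β t n j) =
      ((mat f t n).det)⁻¹ • Matrix.cramer (mat f t n) (fun i => β i) := by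
    funext j
    unfold sol
    rw [dif_pos j.2]
    rfl
  rw [h2, Matrix.mulVec_smul, Matrix.mulVec_cramer, smul_smul, inv_mul_cancel₀ hd, one_smul]

section

variable {f : ℕ → ℕ → ℂ} {t : ℂ}

theorem row_le (hrow : ∀ i, Summable fun j => ‖f i j‖ ^ 2) (n i : ℕ) (u : ℕ → ℂ) :
    ‖t * ∑ j ∈ range n, f i j * u j‖ ^ 2 ≤
      ‖t‖ ^ 2 * (∑' j, ‖f i j‖ ^ 2) * ∑ j ∈ range n, ‖u j‖ ^ 2 := by
  rw [norm_mul, mul_pow, mul_assoc]
  refine mul_le_mul_of_nonneg_left ?_ (by positivity)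
  refine (cs _ _ _).trans (mul_le_mul_of_nonneg_right ?_ (by positivity))
  exact (hrow i).sum_le_tsum _ (fun j _ => by positivity)

/-- the sections are uniformly invertible -/
theorem unif {M : ℝ} (hrow : ∀ i, Summable fun j => ‖f i j‖ ^ 2)
    (hf : Summable fun i => ∑' j, ‖f i j‖ ^ 2)
    (hgood : ∃ᶠ n in atTop, ∀ u : ℕ → ℂ, ∑ i ∈ range n, ‖u i‖ ^ 2 ≤
      M ^ 2 * ∑ i ∈ range n, ‖df f t n u i‖ ^ 2) :
    ∀ᶠ n in atTop, ∀ u : ℕ → ℂ, ∑ i ∈ range n, ‖u i‖ ^ 2 ≤
      (2 * M) ^ 2 * ∑ i ∈ range n, ‖df f t n u i‖ ^ 2 := by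
  have hδ : Tendsto (fun n => M ^ 2 * (‖t‖ ^ 2 * ∑' i, ∑' j, ‖f (i + n) j‖ ^ 2)) atTop (𝓝 0) := by
    have h1 := tendsto_sum_nat_add (fun i => ∑' j, ‖f i j‖ ^ 2)
    have h2 := (h1.const_mul (‖t‖ ^ 2)).const_mul (M ^ 2)
    simpa using h2
  have hδ' := hδ.eventually (gt_mem_nhds (show (0:ℝ) < 1 / 2 by norm_num))
  filter_upwards [hδ'] with n hn u
  obtain ⟨m, hm, hgm⟩ := (hgood.and_eventually (eventually_ge_atTop n)).exists
  set u' : ℕ → ℂ := fun j => if j < n then u j else 0 with hu'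
  have hmn : n ≤ m := hgm
  have e1 : ∀ g : ℕ → ℂ → ℝ, (∀ j, g j 0 = 0) →
      ∑ j ∈ range m, g j (u' j) = ∑ j ∈ range n, g j (u j) := by
    intro g hg
    rw [← Finset.sum_subset (Finset.range_mono hmn)]
    · refine Finset.sum_congr rfl fun j hj => ?_
      rw [hu']
      simp only [if_pos (Finset.mem_range.1 hj)]
    · intro j _ hj
      rw [hu']
      simp only [if_neg (fun h => hj (Finset.mem_range.2 h)), hg]
  have e2 : ∀ i, ∑ j ∈ range m, f i j * u' j = ∑ j ∈ range n, f i j * u j := by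
    intro i
    rw [← Finset.sum_subset (Finset.range_mono hmn)]
    · refine Finset.sum_congr rfl fun j hj => ?_
      rw [hu']
      simp only [if_pos (Finset.mem_range.1 hj)]
    · intro j _ hj
      rw [hu']
      simp only [if_neg (fun h => hj (Finset.mem_range.2 h)), mul_zero]
  set U := ∑ i ∈ range n, ‖u i‖ ^ 2 with hU
  set V := ∑ i ∈ range n, ‖df f t n u i‖ ^ 2 with hV
  have hU0 : 0 ≤ U := Finset.sum_nonneg fun _ _ => by positivity
  have hV0 : 0 ≤ V := Finset.sum_nonneg fun _ _ => by positivity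
  have h3 := hm u'
  rw [e1 (fun _ x => ‖x‖ ^ 2) (fun _ => by simp), ← hU] at h3
  have h4 : ∑ i ∈ range m, ‖df f t m u' i‖ ^ 2 ≤
      V + (‖t‖ ^ 2 * ∑' i, ∑' j, ‖f (i + n) j‖ ^ 2) * U := by
    rw [← Finset.sum_range_add_sum_Ico _ hmn]
    refine add_le_add (le_of_eq ?_) ?_
    · refine Finset.sum_congr rfl fun i hi => ?_
      unfold df
      rw [e2, hu']
      simp only [if_pos (Finset.mem_range.1 hi)]
    · have h5 : ∀ i ∈ Finset.Ico n m, ‖df f t m u' i‖ ^ 2 ≤
          ‖t‖ ^ 2 * (∑' j, ‖f i j‖ ^ 2) * U := by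
        intro i hi
        have h6 : df f t m u' i = - (t * ∑ j ∈ range n, f i j * u j) := by
          unfold df
          rw [e2, hu']
          simp only [if_neg (not_lt.2 (Finset.mem_Ico.1 hi).1), zero_sub]
        rw [h6, norm_neg]
        exact row_le hrow n i u
      refine (Finset.sum_le_sum h5).trans ?_
      rw [← Finset.sum_mul, ← Finset.mul_sum]
      refine mul_le_mul_of_nonneg_right (mul_le_mul_of_nonneg_left ?_ (by positivity)) hU0
      rw [Finset.sum_Ico_eq_sum_range]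
      have h7 : ∀ i, ∑' j, ‖f (n + i) j‖ ^ 2 = ∑' j, ‖f (i + n) j‖ ^ 2 := fun i => by
        rw [add_comm]
      simp only [h7]
      exact ((summable_nat_add_iff n).2 hf).sum_le_tsum _
        (fun i _ => tsum_nonneg fun j => by positivity)
  have h8 : M ^ 2 * (V + (‖t‖ ^ 2 * ∑' i, ∑' j, ‖f (i + n) j‖ ^ 2) * U) ≤
      M ^ 2 * V + 1 / 2 * U := by
    have := mul_le_mul_of_nonneg_right hn.le hU0
    nlinarith
  have h9 := h3.trans ((mul_le_mul_of_nonneg_left h4 (by positivity)).trans h8)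
  nlinarith [mul_nonneg (sq_nonneg M) hV0]

end

/-- **convergence of the finite sections** -/
theorem sections (f : ℕ → ℕ → ℂ) (β : ℕ → ℂ) (t : ℂ) {M : ℝ}
    (hrow : ∀ i, Summable fun j => ‖f i j‖ ^ 2) (hf : Summable fun i => ∑' j, ‖f i j‖ ^ 2)
    (hb : Summable fun i => ‖β i‖ ^ 2)
    (hgood : ∃ᶠ n in atTop, ∀ u : ℕ → ℂ, ∑ i ∈ range n, ‖u i‖ ^ 2 ≤
      M ^ 2 * ∑ i ∈ range n, ‖df f t n u i‖ ^ 2) :
    ∃ c : ℕ → ℂ, (∀ j, Tendsto (fun n => sol f β t n j) atTop (𝓝 (c j))) ∧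
      (∀ n, ∑ j ∈ range n, ‖c j‖ ^ 2 ≤ (2 * M) ^ 2 * ∑' i, ‖β i‖ ^ 2) ∧
      ∀ i, HasSum (fun j => t * (f i j * c j)) (c i - β i) := by
  obtain ⟨n0, hn0⟩ := eventually_atTop.1 (unif hrow hf hgood)
  have hdet : ∀ n, n0 ≤ n → (mat f t n).det ≠ 0 := by
    intro n hn hd
    obtain ⟨v, hv, hv0⟩ := Matrix.exists_mulVec_eq_zero_iff.2 hd
    set u : ℕ → ℂ := fun j => if h : j < n then v ⟨j, h⟩ else 0 with hu
    have huv : (fun j : Fin n => u j) = v := by
      funext j
      rw [hu]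
      simp only [dif_pos j.2, Fin.eta]
    have h1 : ∀ i ∈ range n, ‖df f t n u i‖ ^ 2 = 0 := by
      intro i hi
      have h2 := mat_mulVec f t n u ⟨i, Finset.mem_range.1 hi⟩
      rw [huv, hv0] at h2
      rw [← h2]
      simp
    have h3 := hn0 n hn u
    rw [Finset.sum_eq_zero h1, mul_zero] at h3
    apply hv
    funext j
    have h4 : ‖u j‖ ^ 2 ≤ 0 :=
      (Finset.single_le_sum (f := fun j => ‖u j‖ ^ 2) (fun i _ => by positivity)
        (Finset.mem_range.2 j.2)).trans h3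
    have h5 : ‖u j‖ = 0 := by
      have := sq_nonneg ‖u j‖
      exact pow_eq_zero_iff (n := 2) (by norm_num) |>.1 (le_antisymm h4 this)
    have h6 := norm_eq_zero.1 h5
    rw [← huv]
    exact h6
  set B := ∑' i, ‖β i‖ ^ 2 with hB
  have hB0 : 0 ≤ B := tsum_nonneg fun _ => by positivity
  have hsol : ∀ n, n0 ≤ n → ∑ j ∈ range n, ‖sol f β t n j‖ ^ 2 ≤ (2 * M) ^ 2 * B := by
    intro n hn
    refine (hn0 n hn _).trans (mul_le_mul_of_nonneg_left ?_ (by positivity))
    rw [Finset.sum_congr rfl fun i hi => by rw [df_sol (hdet n hn) (Finset.mem_range.1 hi)]]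
    exact hb.sum_le_tsum _ (fun _ _ => by positivity)
  set η : ℕ → ℝ := fun n => (2 * M) ^ 2 * (2 * ((∑' i, ‖β (i + n)‖ ^ 2) +
    (‖t‖ ^ 2 * ∑' i, ∑' j, ‖f (i + n) j‖ ^ 2) * ((2 * M) ^ 2 * B))) with hη
  have hη0 : Tendsto η atTop (𝓝 0) := by
    have h1 := tendsto_sum_nat_add (fun i => ∑' j, ‖f i j‖ ^ 2)
    have h2 := tendsto_sum_nat_add (fun i => ‖β i‖ ^ 2)
    have h3 := ((h2.add ((h1.const_mul (‖t‖ ^ 2)).mul_const ((2 * M) ^ 2 * B))).const_mul
      2).const_mul ((2 * M) ^ 2)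
    simpa using h3
  have hcau : ∀ n m, n0 ≤ n → n ≤ m →
      ∑ j ∈ range m, ‖sol f β t m j - sol f β t n j‖ ^ 2 ≤ η n := by
    intro n m hn hnm
    have h1 := hn0 m (hn.trans hnm) (fun j => sol f β t m j - sol f β t n j)
    refine h1.trans ?_
    rw [hη]
    refine mul_le_mul_of_nonneg_left ?_ (by positivity)
    have e2 : ∀ i, ∑ j ∈ range m, f i j * sol f β t n j =
        ∑ j ∈ range n, f i j * sol f β t n j := by
      intro i
      rw [← Finset.sum_subset (Finset.range_mono hnm)]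
      intro j _ hj
      rw [sol_zero (not_lt.1 fun h => hj (Finset.mem_range.2 h)), mul_zero]
    have e3 : ∀ i, df f t m (fun j => sol f β t m j - sol f β t n j) i =
        df f t m (sol f β t m) i - (sol f β t n i - t * ∑ j ∈ range n, f i j * sol f β t n j) := by
      intro i
      unfold df
      rw [← e2 i]
      simp only [mul_sub, Finset.sum_sub_distrib]
      ring
    rw [← Finset.sum_range_add_sum_Ico _ hnm, Finset.sum_eq_zero, zero_add]
    · have h5 : ∀ i ∈ Finset.Ico n m,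
          ‖df f t m (fun j => sol f β t m j - sol f β t n j) i‖ ^ 2 ≤
          2 * (‖β i‖ ^ 2 + (‖t‖ ^ 2 * ∑' j, ‖f i j‖ ^ 2) * ((2 * M) ^ 2 * B)) := by
        intro i hi
        rw [e3 i, df_sol (hdet m (hn.trans hnm)) (Finset.mem_Ico.1 hi).2,
          sol_zero (Finset.mem_Ico.1 hi).1]
        have h6 : ‖t * ∑ j ∈ range n, f i j * sol f β t n j‖ ^ 2 ≤
            (‖t‖ ^ 2 * ∑' j, ‖f i j‖ ^ 2) * ((2 * M) ^ 2 * B) :=
          (row_le hrow n i _).trans (mul_le_mul_of_nonneg_left (hsol n hn) (by positivity))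
        have h7 : ‖β i - (0 - t * ∑ j ∈ range n, f i j * sol f β t n j)‖ ≤
            ‖β i‖ + ‖t * ∑ j ∈ range n, f i j * sol f β t n j‖ := by
          rw [zero_sub, sub_neg_eq_add]
          exact norm_add_le _ _
        have h8 := pow_le_pow_left₀ (norm_nonneg _) h7 2
        nlinarith [sq_nonneg (‖β i‖ - ‖t * ∑ j ∈ range n, f i j * sol f β t n j‖)]
      refine (Finset.sum_le_sum h5).trans ?_
      rw [← Finset.mul_sum]
      refine mul_le_mul_of_nonneg_left ?_ (by norm_num)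
      rw [Finset.sum_add_distrib, ← Finset.sum_mul, ← Finset.mul_sum]
      refine add_le_add ?_ (mul_le_mul_of_nonneg_right (mul_le_mul_of_nonneg_left ?_
        (by positivity)) (by positivity))
      · rw [Finset.sum_Ico_eq_sum_range]
        have h7 : ∀ i, ‖β (n + i)‖ ^ 2 = ‖β (i + n)‖ ^ 2 := fun i => by rw [add_comm]
        simp only [h7]
        exact ((summable_nat_add_iff n).2 hb).sum_le_tsum _ (fun i _ => by positivity)
      · rw [Finset.sum_Ico_eq_sum_range]
        have h7 : ∀ i, ∑' j, ‖f (n + i) j‖ ^ 2 = ∑' j, ‖f (i + n) j‖ ^ 2 := fun i => by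
          rw [add_comm]
        simp only [h7]
        exact ((summable_nat_add_iff n).2 hf).sum_le_tsum _
          (fun i _ => tsum_nonneg fun j => by positivity)
    · intro i hi
      rw [e3 i, df_sol (hdet m (hn.trans hnm)) ((Finset.mem_range.1 hi).trans_le hnm)]
      have h6 := df_sol (β := β) (hdet n hn) (Finset.mem_range.1 hi)
      unfold df at h6
      rw [h6, sub_self]
      simp
  -- one coordinate
  have hone : ∀ j n m, n0 ≤ n → n ≤ m → ‖sol f β t m j - sol f β t n j‖ ^ 2 ≤ η n := by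
    intro j n m hn hnm
    by_cases hj : j < m
    · exact (Finset.single_le_sum (f := fun j => ‖sol f β t m j - sol f β t n j‖ ^ 2)
        (fun i _ => by positivity) (Finset.mem_range.2 hj)).trans (hcau n m hn hnm)
    · rw [sol_zero (not_lt.1 hj), sol_zero (hnm.trans (not_lt.1 hj)), sub_zero]
      have := (Finset.sum_nonneg fun j _ => by positivity : (0:ℝ) ≤
        ∑ j ∈ range m, ‖sol f β t m j - sol f β t n j‖ ^ 2).trans (hcau n m hn hnm)
      simpa using this
  have hC : ∀ j, CauchySeq fun n => sol f β t n j := by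
    intro j
    rw [Metric.cauchySeq_iff']
    intro ε hε
    obtain ⟨n1, hn1⟩ := eventually_atTop.1 (hη0.eventually (gt_mem_nhds (show (0:ℝ) < ε ^ 2 by
      positivity)))
    refine ⟨max n0 n1, fun m hm => ?_⟩
    rw [dist_eq_norm]
    have h1 := hone j (max n0 n1) m (le_max_left _ _) hm
    have h2 := hn1 (max n0 n1) (le_max_right _ _)
    exact lt_of_pow_lt_pow_left₀ 2 hε.le (h1.trans_lt h2)
  choose c hc using fun j => cauchySeq_tendsto_of_complete (hC j)
  have hcn : ∀ n, n0 ≤ n → ∀ J, ∑ j ∈ range J, ‖c j - sol f β t n j‖ ^ 2 ≤ η n := by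
    intro n hn J
    have h1 : Tendsto (fun m => ∑ j ∈ range J, ‖sol f β t m j - sol f β t n j‖ ^ 2) atTop
        (𝓝 (∑ j ∈ range J, ‖c j - sol f β t n j‖ ^ 2)) :=
      tendsto_finsetSum _ fun j _ => (((hc j).sub_const _).norm).pow 2
    refine le_of_tendsto h1 ?_
    filter_upwards [eventually_ge_atTop n, eventually_ge_atTop J] with m hm1 hm2
    exact (Finset.sum_le_sum_of_subset_of_nonneg (Finset.range_mono hm2)
      (fun i _ _ => by positivity)).trans (hcau n m hn hm1)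
  refine ⟨c, hc, ?_, ?_⟩
  · intro J
    have h1 : Tendsto (fun m => ∑ j ∈ range J, ‖sol f β t m j‖ ^ 2) atTop
        (𝓝 (∑ j ∈ range J, ‖c j‖ ^ 2)) :=
      tendsto_finsetSum _ fun j _ => ((hc j).norm).pow 2
    refine le_of_tendsto h1 ?_
    filter_upwards [eventually_ge_atTop n0, eventually_ge_atTop J] with m hm1 hm2
    exact (Finset.sum_le_sum_of_subset_of_nonneg (Finset.range_mono hm2)
      (fun i _ _ => by positivity)).trans (hsol m hm1)
  · intro i
    have hcs : Summable fun j => ‖c j‖ ^ 2 := by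
      refine summable_of_sum_range_le (c := (2 * M) ^ 2 * B) (fun _ => by positivity) ?_
      intro J
      have h1 : Tendsto (fun m => ∑ j ∈ range J, ‖sol f β t m j‖ ^ 2) atTop
          (𝓝 (∑ j ∈ range J, ‖c j‖ ^ 2)) :=
        tendsto_finsetSum _ fun j _ => ((hc j).norm).pow 2
      refine le_of_tendsto h1 ?_
      filter_upwards [eventually_ge_atTop n0, eventually_ge_atTop J] with m hm1 hm2
      exact (Finset.sum_le_sum_of_subset_of_nonneg (Finset.range_mono hm2)
        (fun i _ _ => by positivity)).trans (hsol m hm1)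
    have hs : Summable fun j => t * (f i j * c j) := by
      refine Summable.mul_left t ?_
      refine Summable.of_norm_bounded (g := fun j => ‖f i j‖ ^ 2 + ‖c j‖ ^ 2)
        ((hrow i).add hcs) fun j => ?_
      rw [norm_mul]
      nlinarith [sq_nonneg (‖f i j‖ - ‖c j‖), sq_nonneg ‖f i j‖, sq_nonneg ‖c j‖]
    have hlim : Tendsto (fun n => ∑ j ∈ range n, t * (f i j * c j)) atTop (𝓝 (c i - β i)) := by
      have h1 : Tendsto (fun n => sol f β t n i - β i) atTop (𝓝 (c i - β i)) :=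
        (hc i).sub_const _
      have h2 : Tendsto (fun n => t * ∑ j ∈ range n, f i j * (c j - sol f β t n j)) atTop
          (𝓝 0) := by
        rw [tendsto_zero_iff_norm_tendsto_zero]
        have h3 : Tendsto (fun n => Real.sqrt (‖t‖ ^ 2 * (∑' j, ‖f i j‖ ^ 2) * η n)) atTop
            (𝓝 0) := by
          have h4 := ((hη0.const_mul (‖t‖ ^ 2 * ∑' j, ‖f i j‖ ^ 2))).sqrt
          simpa using h4
        refine squeeze_zero' (Eventually.of_forall fun _ => norm_nonneg _) ?_ h3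
        filter_upwards [eventually_ge_atTop n0] with n hn
        refine Real.le_sqrt_of_sq_le ?_
        exact (row_le hrow n i _).trans (mul_le_mul_of_nonneg_left (hcn n hn n) (by positivity))
      have h3 := h1.add h2
      rw [add_zero] at h3
      refine h3.congr' ?_
      filter_upwards [eventually_ge_atTop n0, eventually_gt_atTop i] with n hn hin
      have h6 := df_sol (β := β) (hdet n hn) hin
      unfold df at h6
      have h7 : sol f β t n i - β i = t * ∑ j ∈ range n, f i j * sol f β t n j := by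
        rw [← h6]; ring
      rw [h7, ← mul_add, ← Finset.sum_add_distrib, Finset.mul_sum]
      refine Finset.sum_congr rfl fun j _ => ?_
      ring
    have h1 := hs.hasSum.tendsto_sum_nat
    rw [← tendsto_nhds_unique h1 hlim]
    exact hs.hasSum

end Pool.Agent.K1H59.BN
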