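import Pool.Agent.K1H27.BN.Stm
import Pool.Agent.K1H31.SN.Invp
import Pool.Agent.Y604.NK.MEAS
import Pool.Agent.K1H59.BN.Pt

/-!
# Project BN: the infinite systems of linear equations (SOL)
-/

set_option autoImplicit false

namespace Pool.Agent.K1H59.BN

open MeasureTheory Set Metric Filter Topology
open scoped ENNReal NNReal
open Pool.Agent.Y283.NK (lm measurable_det)
open Pool.Agent.Y604.NK (meas_lm)
open Pool.Agent.K1H27.SN (fd col)
open Pool.Agent.K1H27.BN (S_SOL sec)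

theorem sqle {p : ℝ} (h1 : 1 < p) (h2 : p < 2) {x S : ℝ≥0∞} (h : x ^ p ≤ S) :
    x ^ 2 ≤ x ^ p * (1 + S) := by
  have e1 : x ^ 2 = x ^ p * x ^ (2 - p) := by
    rw [← ENNReal.rpow_add_of_nonneg _ _ (by linarith) (by linarith), ← ENNReal.rpow_natCast]
    norm_num
  rw [e1]
  refine mul_le_mul_right ?_ _
  have e2 : x ^ (2 - p) = (x ^ p) ^ ((2 - p) / p) := by
    rw [← ENNReal.rpow_mul]
    congr 1
    field_simp
  rw [e2]
  have h3 : 0 ≤ (2 - p) / p := div_nonneg (by linarith) (by linarith)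
  have h4 : (2 - p) / p ≤ 1 := by rw [div_le_one (by linarith)]; linarith
  calc (x ^ p) ^ ((2 - p) / p) ≤ (1 + S) ^ ((2 - p) / p) :=
        ENNReal.rpow_le_rpow (h.trans le_add_self) h3
    _ ≤ (1 + S) ^ (1:ℝ) := ENNReal.rpow_le_rpow_of_exponent_le le_self_add h4
    _ = 1 + S := ENNReal.rpow_one _

theorem sum_sq {p : ℝ} (h1 : 1 < p) (h2 : p < 2) (a : ℕ → ℂ) :
    ∑' i, ‖a i‖ₑ ^ 2 ≤ (∑' i, ‖a i‖ₑ ^ p) * (1 + ∑' i, ‖a i‖ₑ ^ p) := by
  rw [← ENNReal.tsum_mul_right]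
  exact ENNReal.tsum_le_tsum fun i => sqle h1 h2 (ENNReal.le_tsum (f := fun i => ‖a i‖ₑ ^ p) i)

theorem sum_sq2 {p : ℝ} (h1 : 1 < p) (h2 : p < 2) (f : ℕ → ℕ → ℂ) :
    ∑' i, ∑' j, ‖f i j‖ₑ ^ 2 ≤
      (∑' i, ∑' j, ‖f i j‖ₑ ^ p) * (1 + ∑' i, ∑' j, ‖f i j‖ₑ ^ p) := by
  rw [← ENNReal.tsum_mul_right]
  refine ENNReal.tsum_le_tsum fun i => ?_
  rw [← ENNReal.tsum_mul_right]
  refine ENNReal.tsum_le_tsum fun j => sqle h1 h2 ?_
  exact (ENNReal.le_tsum (f := fun j => ‖f i j‖ₑ ^ p) j).trans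
    (ENNReal.le_tsum (f := fun i => ∑' j, ‖f i j‖ₑ ^ p) i)

theorem toReal_sq (x : ℂ) : (‖x‖ₑ ^ 2).toReal = ‖x‖ ^ 2 := by
  rw [ENNReal.toReal_pow, toReal_enorm]

theorem summ {a : ℕ → ℂ} (h : ∑' i, ‖a i‖ₑ ^ 2 ≠ ⊤) : Summable fun i => ‖a i‖ ^ 2 := by
  have := ENNReal.summable_toReal h
  simpa only [toReal_sq] using this

theorem tsum_eq (a : ℕ → ℂ) : (∑' i, ‖a i‖ₑ ^ 2).toReal = ∑' i, ‖a i‖ ^ 2 := by
  rw [ENNReal.tsum_toReal_eq fun i => by finiteness]
  exact tsum_congr fun i => toReal_sq _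

theorem summ2 {f : ℕ → ℕ → ℂ} (h : ∑' i, ∑' j, ‖f i j‖ₑ ^ 2 ≠ ⊤) :
    Summable fun i => ∑' j, ‖f i j‖ ^ 2 := by
  have := ENNReal.summable_toReal h
  simpa only [tsum_eq] using this

/-- subadditivity of `x ^ q`, `q ≤ 1` -/
theorem rsub {q : ℝ} (h0 : 0 ≤ q) (h1 : q ≤ 1) (s : Finset ℕ) (a : ℕ → ℝ≥0∞) :
    (∑ i ∈ s, a i) ^ q ≤ ∑ i ∈ s, (a i) ^ q ∨ q = 0 := by
  classical
  by_cases hq : q = 0
  · exact Or.inr hq
  · left
    have hq' : 0 < q := lt_of_le_of_ne h0 (Ne.symm hq)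
    induction s using Finset.induction_on with
    | empty => simp [hq']
    | insert i s hi ih =>
      rw [Finset.sum_insert hi, Finset.sum_insert hi]
      exact (ENNReal.rpow_add_le_add_rpow _ _ h0 h1).trans (add_le_add_right ih _)

theorem fd_bound {p : ℝ} (h1 : 1 < p) (h2 : p < 2) (f : ℕ → ℕ → ℂ) (n : ℕ) (t : ℂ)
    (hA : ∑' i, ∑' j, ‖f i j‖ₑ ^ p ≠ ⊤) :
    ∑ j : Fin n, (‖t‖ * col (sec f n) j) ^ p ≤
      ‖t‖ ^ p * (∑' i, ∑' j, ‖f i j‖ₑ ^ p).toReal := by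
  have hp0 : 0 < p := by linarith
  have e1 : ∀ j : Fin n, ENNReal.ofReal (col (sec f n) j ^ p) ≤
      ∑ i : Fin n, ‖f i j‖ₑ ^ p := by
    intro j
    have hc0 : 0 ≤ col (sec f n) j := Real.sqrt_nonneg _
    rw [← ENNReal.ofReal_rpow_of_nonneg hc0 hp0.le]
    have e2 : ENNReal.ofReal (col (sec f n) j) = (∑ i ∈ Finset.range n, ‖f i j‖ₑ ^ 2) ^
        (1 / 2 : ℝ) := by
      unfold col
      rw [Real.sqrt_eq_rpow, ← ENNReal.ofReal_rpow_of_nonneg
        (Finset.sum_nonneg fun _ _ => by positivity) (by norm_num)]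
      congr 1
      rw [ENNReal.ofReal_sum_of_nonneg (fun _ _ => by positivity),
        Finset.sum_range (fun i => ‖f i j‖ₑ ^ 2)]
      refine Finset.sum_congr rfl fun i _ => ?_
      rw [ENNReal.ofReal_pow (norm_nonneg _), ofReal_norm]
      rfl
    rw [e2, ← ENNReal.rpow_mul]
    have e3 := rsub (q := 1 / 2 * p) (by linarith) (by linarith) (Finset.range n)
      (fun i => ‖f i j‖ₑ ^ 2)
    rcases e3 with e3 | e3
    · refine e3.trans (le_of_eq ?_)
      rw [Finset.sum_range (fun i => (‖f i j‖ₑ ^ 2) ^ (1 / 2 * p))]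
      refine Finset.sum_congr rfl fun i _ => ?_
      rw [← ENNReal.rpow_natCast, ← ENNReal.rpow_mul]
      congr 1
      push_cast
      ring
    · exfalso
      have : 1 / 2 * p ≠ 0 := by positivity
      exact this e3
  have e4 : ENNReal.ofReal (∑ j : Fin n, col (sec f n) j ^ p) ≤
      ∑' i, ∑' j, ‖f i j‖ₑ ^ p := by
    have hcol : ∀ j : Fin n, 0 ≤ col (sec f n) j := fun j => Real.sqrt_nonneg _
    rw [ENNReal.ofReal_sum_of_nonneg (fun j _ => Real.rpow_nonneg (hcol j) p)]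
    refine (Finset.sum_le_sum fun j _ => e1 j).trans ?_
    rw [Finset.sum_comm, ← Finset.sum_range (fun i => ∑ j : Fin n, ‖f i j‖ₑ ^ p)]
    refine (Finset.sum_le_sum fun i _ => ?_).trans
      (ENNReal.sum_le_tsum (f := fun i => ∑' j, ‖f i j‖ₑ ^ p) (Finset.range n))
    rw [← Finset.sum_range (fun j => ‖f i j‖ₑ ^ p)]
    exact ENNReal.sum_le_tsum (f := fun j => ‖f i j‖ₑ ^ p) (Finset.range n)
  have e5 : ∑ j : Fin n, (‖t‖ * col (sec f n) j) ^ p =
      ‖t‖ ^ p * ∑ j : Fin n, col (sec f n) j ^ p := by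
    rw [Finset.mul_sum]
    exact Finset.sum_congr rfl fun j _ => Real.mul_rpow (norm_nonneg _) (Real.sqrt_nonneg _)
  rw [e5]
  refine mul_le_mul_of_nonneg_left ?_ (Real.rpow_nonneg (norm_nonneg _) _)
  exact (ENNReal.ofReal_le_iff_le_toReal hA).1 e4

/-- a finite section with a large regularized determinant -/
theorem good_sec {p : ℝ} (h1 : 1 < p) (h2 : p < 2) (f : ℕ → ℕ → ℂ) (n : ℕ) (t : ℂ) (L : ℝ)
    (hL0 : 0 ≤ L) (hA : ∑' i, ∑' j, ‖f i j‖ₑ ^ p ≠ ⊤)
    (hL : lm ‖fd (sec f n) t‖ ≤ ENNReal.ofReal L) (u : ℕ → ℂ) :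
    ∑ i ∈ Finset.range n, ‖u i‖ ^ 2 ≤
      (2 * Real.exp (3 * (‖t‖ ^ p * (∑' i, ∑' j, ‖f i j‖ₑ ^ p).toReal) + L)) ^ 2 *
        ∑ i ∈ Finset.range n, ‖df f t n u i‖ ^ 2 := by
  have hne : ‖fd (sec f n) t‖ ≠ 0 := by
    intro h0
    rw [lm, if_pos h0, top_le_iff] at hL
    exact ENNReal.ofReal_ne_top hL
  have hpos : 0 < ‖fd (sec f n) t‖ := lt_of_le_of_ne (norm_nonneg _) (Ne.symm hne)
  have hinv : ‖fd (sec f n) t‖⁻¹ ≤ Real.exp L := by
    rw [lm, if_neg hne, ENNReal.ofReal_le_ofReal_iff hL0] at hL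
    have h3 : Real.log ‖fd (sec f n) t‖⁻¹ ≤ L := (le_max_right _ _).trans hL
    calc ‖fd (sec f n) t‖⁻¹ = Real.exp (Real.log ‖fd (sec f n) t‖⁻¹) :=
          (Real.exp_log (by positivity)).symm
      _ ≤ Real.exp L := Real.exp_le_exp.2 h3
  have hdet : (1 - t • sec f n).det ≠ 0 := by
    intro h0
    apply hne
    unfold fd
    rw [h0, zero_mul, norm_zero]
  have hmat : (1 - t • sec f n) = mat f t n := rfl
  have key := Pool.Agent.K1H31.SN.t_INVP.1 n (sec f n) t p (fun i => df f t n u i)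
    (fun i => u i) h1.le h2.le hdet (by
      funext i
      rw [hmat]
      exact mat_mulVec f t n u i)
  set U := Real.sqrt (∑ i : Fin n, ‖u i‖ ^ 2) with hU
  set V := Real.sqrt (∑ i : Fin n, ‖df f t n u i‖ ^ 2) with hV
  have hU0 : 0 ≤ U := Real.sqrt_nonneg _
  have hV0 : 0 ≤ V := Real.sqrt_nonneg _
  have hU2 : U ^ 2 = ∑ i ∈ Finset.range n, ‖u i‖ ^ 2 := by
    rw [hU, Real.sq_sqrt (Finset.sum_nonneg fun _ _ => by positivity),
      Finset.sum_range (fun i => ‖u i‖ ^ 2)]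
  have hV2 : V ^ 2 = ∑ i ∈ Finset.range n, ‖df f t n u i‖ ^ 2 := by
    rw [hV, Real.sq_sqrt (Finset.sum_nonneg fun _ _ => by positivity),
      Finset.sum_range (fun i => ‖df f t n u i‖ ^ 2)]
  rw [← hU2, ← hV2, ← mul_pow]
  refine pow_le_pow_left₀ hU0 ?_ 2
  have h5 : U ≤ V * (2 * Real.exp (3 * ∑ j, (‖t‖ * col (sec f n) j) ^ p)) *
      ‖fd (sec f n) t‖⁻¹ := by
    rw [← div_eq_mul_inv, le_div_iff₀ hpos]
    exact key
  refine h5.trans ?_
  have h6 := fd_bound h1 h2 f n t hA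
  have h7 : Real.exp (3 * ∑ j, (‖t‖ * col (sec f n) j) ^ p) ≤
      Real.exp (3 * (‖t‖ ^ p * (∑' i, ∑' j, ‖f i j‖ₑ ^ p).toReal)) :=
    Real.exp_le_exp.2 (by linarith)
  calc V * (2 * Real.exp (3 * ∑ j, (‖t‖ * col (sec f n) j) ^ p)) * ‖fd (sec f n) t‖⁻¹
      ≤ V * (2 * Real.exp (3 * (‖t‖ ^ p * (∑' i, ∑' j, ‖f i j‖ₑ ^ p).toReal))) *
        Real.exp L := by
        gcongr
    _ = 2 * Real.exp (3 * (‖t‖ ^ p * (∑' i, ∑' j, ‖f i j‖ₑ ^ p).toReal) + L) * V := by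
        rw [Real.exp_add]; ring

theorem meas_mat {F : ℂ → ℕ → ℕ → ℂ} (hF : ∀ i j, Measurable fun z => F z i j) (t : ℂ) (n : ℕ)
    (i j : Fin n) : Measurable fun z => mat (F z) t n i j := by
  unfold mat
  simp only [Matrix.sub_apply, Matrix.smul_apply, Matrix.of_apply]
  exact measurable_const.sub ((hF i j).const_smul t)

theorem meas_fd' {F : ℂ → ℕ → ℕ → ℂ} (hF : ∀ i j, Measurable fun z => F z i j) (t : ℂ) (n : ℕ) :
    Measurable fun z => fd (sec (F z) n) t := by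
  unfold fd
  refine (measurable_det (A := fun z => 1 - t • sec (F z) n)
    (meas_mat hF t n)).mul (Complex.measurable_exp.comp (measurable_const.mul ?_))
  unfold Matrix.trace
  exact Finset.measurable_fun_sum _ fun i _ => hF _ _

theorem meas_sol {F : ℂ → ℕ → ℕ → ℂ} {b : ℂ → ℕ → ℂ} (hF : ∀ i j, Measurable fun z => F z i j)
    (hb : ∀ i, Measurable fun z => b z i) (t : ℂ) (n j : ℕ) :
    Measurable fun z => sol (F z) (b z) t n j := by
  unfold sol
  by_cases h : j < n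
  · simp only [dif_pos h]
    refine (measurable_det (meas_mat hF t n)).inv.mul ?_
    simp only [Matrix.cramer_apply]
    refine measurable_det fun i k => ?_
    simp only [Matrix.updateCol_apply]
    by_cases hk : k = ⟨j, h⟩
    · simp only [hk, if_true]
      exact hb _
    · simp only [hk, if_false]
      exact meas_mat hF t n i k
  · simp only [dif_neg h]
    exact measurable_const

theorem t_SOL : S_SOL := by
  intro p h1 h2 F b t R hF hb hA hβ hI
  obtain ⟨I, B, hIinf, hIB⟩ := hI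
  obtain ⟨φ, hφ, hφI⟩ := Nat.exists_strictMono_subsequence (P := fun n => n ∈ I) (fun N => by
    obtain ⟨n, hn, hn'⟩ := hIinf.exists_gt N
    exact ⟨n, hn', hn⟩)
  set μ : Measure ℂ := volume.restrict (ball (0:ℂ) R) with hμ
  set A : ℂ → ℝ≥0∞ := fun z => ∑' i, ∑' j, ‖F z i j‖ₑ ^ p with hAdef
  set β : ℂ → ℝ≥0∞ := fun z => ∑' i, ‖b z i‖ₑ ^ p with hβdef
  set L : ℂ → ℝ≥0∞ := fun z => liminf (fun k => lm ‖fd (sec (F z) (φ k)) t‖) atTop with hLdef
  have mA : Measurable A := Measurable.tsum fun i => Measurable.tsum fun j =>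
    (hF i j).enorm.pow_const p
  have mβ : Measurable β := Measurable.tsum fun i => (hb i).enorm.pow_const p
  have mlm : ∀ n, Measurable fun z => lm ‖fd (sec (F z) n) t‖ := fun n =>
    meas_lm.comp (meas_fd' hF t n).norm
  have mL : Measurable L := Measurable.liminf fun k => mlm _
  have iL : ∫⁻ z, L z ∂μ ≠ ⊤ := by
    refine ne_top_of_le_ne_top (b := (B : ℝ≥0∞)) ENNReal.coe_ne_top ?_
    refine (lintegral_liminf_le fun k => mlm _).trans ?_
    refine (liminf_le_liminf (Eventually.of_forall fun k => hIB (φ k) (hφI k))).trans ?_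
    rw [liminf_const]
  set G : ℂ → ℝ≥0∞ := fun z => ENNReal.ofReal (3 * ‖t‖ ^ p) * A z + L z + β z + 3 with hG
  have mG : Measurable G := (((measurable_const.mul mA).add mL).add mβ).add measurable_const
  have hae : ∀ᵐ z ∂μ, A z < ⊤ ∧ β z < ⊤ ∧ L z < ⊤ := by
    filter_upwards [ae_lt_top mA hA, ae_lt_top mβ hβ, ae_lt_top mL iL] with z a1 a2 a3
    exact ⟨a1, a2, a3⟩
  -- the pointwise statement
  have hpt : ∀ z, A z < ⊤ ∧ β z < ⊤ ∧ L z < ⊤ → ∃ c : ℕ → ℂ,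
      (∀ j, Tendsto (fun n => sol (F z) (b z) t n j) atTop (𝓝 (c j))) ∧
      (∀ n, ∑ j ∈ Finset.range n, ‖c j‖ ^ 2 ≤ Real.exp (2 * (G z).toReal)) ∧
      ∀ i, HasSum (fun j => t * (F z i j * c j)) (c i - b z i) := by
    rintro z ⟨a1, a2, a3⟩
    set Lz : ℝ := (L z).toReal + 1 with hLz
    have hLz0 : 0 ≤ Lz := by positivity
    have hfr : ∃ᶠ k in atTop, lm ‖fd (sec (F z) (φ k)) t‖ < L z + 1 := by
      refine frequently_lt_of_liminf_lt ?_ ?_
      · isBoundedDefault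
      · exact ENNReal.lt_add_right a3.ne one_ne_zero
    have hfr2 : ∃ᶠ n in atTop, ∀ u : ℕ → ℂ, ∑ i ∈ Finset.range n, ‖u i‖ ^ 2 ≤
        (2 * Real.exp (3 * (‖t‖ ^ p * (A z).toReal) + Lz)) ^ 2 *
          ∑ i ∈ Finset.range n, ‖df (F z) t n u i‖ ^ 2 := by
      refine hφ.tendsto_atTop.frequently (hfr.mono fun k hk u => ?_)
      refine good_sec h1 h2 (F z) (φ k) t Lz hLz0 a1.ne (hk.le.trans (le_of_eq ?_)) u
      rw [hLz, ENNReal.ofReal_add ENNReal.toReal_nonneg zero_le_one, ENNReal.ofReal_toReal a3.ne,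
        ENNReal.ofReal_one]
    have s1 : ∑' i, ∑' j, ‖F z i j‖ₑ ^ 2 ≠ ⊤ :=
      ne_top_of_le_ne_top (ENNReal.mul_ne_top a1.ne (by finiteness)) (sum_sq2 h1 h2 (F z))
    have s2 : ∑' i, ‖b z i‖ₑ ^ 2 ≠ ⊤ :=
      ne_top_of_le_ne_top (ENNReal.mul_ne_top a2.ne (by finiteness)) (sum_sq h1 h2 (b z))
    obtain ⟨c, hc1, hc2, hc3⟩ := sections (F z) (b z) t
      (M := 2 * Real.exp (3 * (‖t‖ ^ p * (A z).toReal) + Lz))
      (fun i => summ (ne_top_of_le_ne_top s1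
        (ENNReal.le_tsum (f := fun i => ∑' j, ‖F z i j‖ₑ ^ 2) i))) (summ2 s1) (summ s2) hfr2
    refine ⟨c, hc1, fun n => (hc2 n).trans ?_, hc3⟩
    have hb2 : ∑' i, ‖b z i‖ ^ 2 ≤ Real.exp (2 * (β z).toReal) := by
      rw [← tsum_eq]
      have q1 := ENNReal.toReal_mono (ENNReal.mul_ne_top a2.ne (by finiteness))
        (sum_sq h1 h2 (b z))
      rw [ENNReal.toReal_mul, ENNReal.toReal_add ENNReal.one_ne_top a2.ne,
        ENNReal.toReal_one] at q1
      refine q1.trans ?_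
      have q2 : (β z).toReal + 1 ≤ Real.exp (β z).toReal := Real.add_one_le_exp _
      have q3 : 0 ≤ (β z).toReal := ENNReal.toReal_nonneg
      have q4 : Real.exp (2 * (β z).toReal) = Real.exp (β z).toReal * Real.exp (β z).toReal := by
        rw [← Real.exp_add]; ring_nf
      rw [q4]
      exact mul_le_mul (by linarith) (by linarith) (by positivity) (by positivity)
    have hGz : (G z).toReal = 3 * ‖t‖ ^ p * (A z).toReal + (L z).toReal + (β z).toReal + 3 := by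
      rw [hG]
      simp only
      rw [ENNReal.toReal_add (by finiteness) (by finiteness),
        ENNReal.toReal_add (by finiteness) (by finiteness),
        ENNReal.toReal_add (by finiteness) (by finiteness), ENNReal.toReal_mul,
        ENNReal.toReal_ofReal (by positivity)]
      norm_num
    have h4 : (4:ℝ) ≤ Real.exp 2 := by
      have : (2:ℝ) ≤ Real.exp 1 := by linarith [Real.add_one_le_exp (1:ℝ)]
      have e : Real.exp 2 = Real.exp 1 * Real.exp 1 := by rw [← Real.exp_add]; norm_num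
      rw [e]
      nlinarith
    calc (2 * (2 * Real.exp (3 * (‖t‖ ^ p * (A z).toReal) + Lz))) ^ 2 * ∑' i, ‖b z i‖ ^ 2
        ≤ (Real.exp 2 * Real.exp (3 * (‖t‖ ^ p * (A z).toReal) + Lz)) ^ 2 *
          Real.exp (2 * (β z).toReal) := by
          refine mul_le_mul ?_ hb2 (tsum_nonneg fun _ => by positivity) (by positivity)
          refine pow_le_pow_left₀ (by positivity) ?_ 2
          have := mul_le_mul_of_nonneg_right h4
            (Real.exp_pos (3 * (‖t‖ ^ p * (A z).toReal) + Lz)).le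
          linarith
      _ = Real.exp (2 * (G z).toReal) := by
          rw [hGz, hLz, ← Real.exp_add, ← Real.exp_nat_mul, ← Real.exp_add]
          congr 1
          push_cast
          ring
  have hlim : ∀ j, ∃ g : ℂ → ℂ, Measurable g ∧
      ∀ᵐ z ∂μ, Tendsto (fun n => sol (F z) (b z) t n j) atTop (𝓝 (g z)) := by
    intro j
    refine measurable_limit_of_tendsto_metrizable_ae
      (fun n => (meas_sol hF hb t n j).aemeasurable) ?_
    filter_upwards [hae] with z hz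
    obtain ⟨c, hc1, -, -⟩ := hpt z hz
    exact ⟨c j, hc1 j⟩
  choose c mc hc using hlim
  refine ⟨G, c, mG, mc, ?_, ?_⟩
  · have e1 : ∫⁻ z in ball (0:ℂ) R, G z =
        ENNReal.ofReal (3 * ‖t‖ ^ p) * (∫⁻ z, A z ∂μ) + (∫⁻ z, L z ∂μ) + (∫⁻ z, β z ∂μ) +
          3 * μ univ := by
      rw [hG]
      simp only
      rw [lintegral_add_right _ measurable_const, lintegral_add_right _ mβ,
        lintegral_add_right _ mL, lintegral_const_mul _ mA, lintegral_const]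
    rw [e1]
    have hfin : μ univ ≠ ⊤ := by
      rw [hμ, Measure.restrict_apply_univ]
      exact measure_ball_lt_top.ne
    have hA' : ∫⁻ z, A z ∂μ ≠ ⊤ := hA
    have hβ' : ∫⁻ z, β z ∂μ ≠ ⊤ := hβ
    finiteness
  · filter_upwards [hae, ae_all_iff.2 hc] with z hz hcz
    obtain ⟨c', hc1, hc2, hc3⟩ := hpt z hz
    have e : ∀ j, c j z = c' j := fun j => tendsto_nhds_unique (hcz j) (hc1 j)
    refine ⟨fun n => ?_, fun i => ?_⟩
    · simp only [e]
      exact hc2 n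
    · simp only [e]
      exact hc3 i

end Pool.Agent.K1H59.BN
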